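import Pool.Agent.Work.MP_ce2d68_du.Interface

set_option autoImplicit false

/-! # MP_ce2d68: block NMINK (helper63), adapted from block MINK of helper46 -/

namespace Pool.Agent.Work.MP_ce2d68_du.h63

open Polynomial Filter Topology
open scoped ComplexConjugate
open Pool.Agent.Work.MP_ce2d68_st Pool.Agent.Work.MP_ce2d68_du

/-- the polynomial with given coefficients -/
noncomputable def wx (d : ℕ) (x : ℕ → ℤ) : ℤ[X] := ∑ k ∈ Finset.range d, C (x k) * X ^ k

theorem wx_ev (d : ℕ) (x : ℕ → ℤ) (a : ℂ) :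
    ev (wx d x) a = ∑ k ∈ Finset.range d, (x k : ℂ) * a ^ k := by
  unfold ev cp wx
  rw [Polynomial.map_sum, eval_finsetSum]
  apply Finset.sum_congr rfl
  intro k _
  rw [Polynomial.map_mul, Polynomial.map_pow, Polynomial.map_C, Polynomial.map_X, eval_mul,
    eval_pow, eval_C, eval_X]
  rfl

theorem wx_coeff (d : ℕ) (x : ℕ → ℤ) {k : ℕ} (hk : k < d) : (wx d x).coeff k = x k := by
  unfold wx
  rw [finsetSum_coeff]
  simp only [coeff_C_mul_X_pow]
  rw [Finset.sum_ite_eq]
  simp [hk]

theorem wx_deg {d : ℕ} (hd : 0 < d) (x : ℕ → ℤ) : (wx d x).natDegree < d := by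
  have h1 : (wx d x).natDegree ≤ d - 1 := by
    unfold wx
    apply natDegree_sum_le_of_forall_le
    intro k hk
    rw [Finset.mem_range] at hk
    exact (natDegree_C_mul_X_pow_le _ _).trans (by omega)
  omega

/-- real remainder modulo `P` -/
theorem exists_rem {P : ℤ[X]} (hd : 0 < P.natDegree) (Y : ℤ[X]) :
    ∃ r : ℕ → ℝ, ∀ a : ℂ, ev P a = 0 →
      ev Y a = ∑ k ∈ Finset.range P.natDegree, (r k : ℂ) * a ^ k := by
  have hinj : Function.Injective (Int.castRingHom ℝ) := RingHom.injective_int _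
  have hPd : (P.map (Int.castRingHom ℝ)).natDegree = P.natDegree :=
    natDegree_map_eq_of_injective hinj P
  have hP0 : P.map (Int.castRingHom ℝ) ≠ 0 := by
    intro h
    rw [h, natDegree_zero] at hPd
    omega
  have hR : (Y.map (Int.castRingHom ℝ) % P.map (Int.castRingHom ℝ)).natDegree < P.natDegree := by
    rw [← hPd]
    exact natDegree_mod_lt _ (by rw [hPd]; omega)
  have key : ∀ (Q : ℤ[X]) (a : ℂ), aeval a (Q.map (Int.castRingHom ℝ)) = ev Q a := by
    intro Q a
    unfold ev cp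
    rw [aeval_def, eval₂_map, eval_map]
    congr 1
  refine ⟨fun k => (Y.map (Int.castRingHom ℝ) % P.map (Int.castRingHom ℝ)).coeff k, fun a ha => ?_⟩
  have h1 := EuclideanDomain.div_add_mod (Y.map (Int.castRingHom ℝ)) (P.map (Int.castRingHom ℝ))
  have h2 := congrArg (aeval a) h1
  rw [map_add, map_mul, key, key, ha, zero_mul, zero_add] at h2
  rw [← h2, aeval_eq_sum_range' hR]
  apply Finset.sum_congr rfl
  intro k _
  rw [Algebra.smul_def]
  rfl

/-- the real coordinates of the values at the roots -/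
noncomputable def uu (a : ℂ) (v : ℂ → ℂ) : ℝ := if 0 ≤ a.im then (v a).re else (v a).im

/-- NMINK -/
theorem p_NMINK (hB : Stmt_NBAS) : Stmt_NMINK := by
  intro P hP
  obtain ⟨-, hcard, hconj, hll, hmem, hdvd⟩ := hB P hP
  have hd0 : 0 < P.natDegree := hP.2
  obtain ⟨d, hdd⟩ : ∃ d, d = P.natDegree := ⟨_, rfl⟩
  rw [← hdd] at hcard
  have hd : 0 < d := by rw [hdd]; exact hd0
  have hPne : P ≠ 0 := by
    intro h
    rw [h, natDegree_zero] at hd0
    omega
  obtain ⟨A, hA⟩ : ∃ A : ℕ, A = P.leadingCoeff.natAbs := ⟨_, rfl⟩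
  have hA1 : 1 ≤ A := by
    rw [hA]
    have : P.leadingCoeff ≠ 0 := leadingCoeff_ne_zero.2 hPne
    omega
  have hAabs : (A : ℝ) = |((P.leadingCoeff : ℤ) : ℝ)| := by
    rw [hA, Nat.cast_natAbs, Int.cast_abs]
  have hA0 : (0 : ℝ) < A := by exact_mod_cast hA1
  have hAll : ∀ L : ℕ, Real.exp (L * llc P) = (A : ℝ) ^ L := by
    intro L
    unfold llc
    rw [Real.exp_nat_mul, ← hAabs, Real.exp_log hA0]
  obtain ⟨B, hB0⟩ : ∃ B : ℝ, B = 1 + ∑ a ∈ rts P, ∑ k ∈ Finset.range d, ‖a‖ ^ k := ⟨_, rfl⟩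
  have hnn : ∀ a ∈ rts P, 0 ≤ ∑ k ∈ Finset.range d, ‖a‖ ^ k := fun a _ =>
    Finset.sum_nonneg (fun k _ => by positivity)
  have hB1 : 1 ≤ B := by
    rw [hB0]
    have := Finset.sum_nonneg hnn
    linarith
  have hBa : ∀ a ∈ rts P, ∑ k ∈ Finset.range d, ‖a‖ ^ k ≤ B := by
    intro a ha
    rw [hB0]
    have := Finset.single_le_sum hnn ha
    linarith
  refine ⟨2 * (6 * B), by linarith, fun L t ht hsum => ?_⟩
  -- choice of `H`
  obtain ⟨H, hH1, hH2⟩ : ∃ H : ℕ, 1 ≤ H ∧ ∀ a ∈ rts P, 9 * Real.exp (t a) ≤ H := by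
    obtain ⟨H, hH⟩ := exists_nat_ge (1 + ∑ a ∈ rts P, 9 * Real.exp (t a))
    have h1 : ∀ a ∈ rts P, 0 ≤ 9 * Real.exp (t a) := fun a _ => by positivity
    have h2 := Finset.sum_nonneg h1
    refine ⟨H, ?_, fun a ha => ?_⟩
    · have h3 : (1 : ℝ) ≤ H := by linarith
      exact_mod_cast h3
    · have := Finset.single_le_sum h1 ha
      linarith
  have hH0 : (0 : ℝ) < H := by exact_mod_cast hH1
  have hH1' : (1 : ℝ) ≤ H := by exact_mod_cast hH1
  obtain ⟨l, hl⟩ : ∃ l : ℂ → ℝ, l = fun a => 6 * B * Real.exp (t a) := ⟨_, rfl⟩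
  have hl0 : ∀ a, 0 < l a := by
    intro a
    rw [hl]
    positivity
  -- coefficients
  obtain ⟨yy, hyy⟩ : ∃ yy : (Fin L → Fin A) → ℕ → ℤ,
      yy = fun y j => if h : j < L then ((y ⟨j, h⟩ : ℕ) : ℤ) else 0 := ⟨_, rfl⟩
  obtain ⟨xx, hxx⟩ : ∃ xx : (Fin d → Fin (H + 1)) → ℕ → ℤ,
      xx = fun x k => if h : k < d then ((x ⟨k, h⟩ : ℕ) : ℤ) else 0 := ⟨_, rfl⟩
  have hyb : ∀ y j, 0 ≤ yy y j ∧ yy y j < A := by
    intro y j
    rw [hyy]
    dsimp only
    split_ifs with h
    · have := (y ⟨j, h⟩).2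
      omega
    · omega
  have hxb : ∀ x k, 0 ≤ xx x k ∧ xx x k ≤ H := by
    intro x k
    rw [hxx]
    dsimp only
    split_ifs with h
    · have := (x ⟨k, h⟩).2
      omega
    · omega
  have hyinj : ∀ y1 y2, (∀ j < L, yy y1 j = yy y2 j) → y1 = y2 := by
    intro y1 y2 h
    funext j
    have h1 := h j j.2
    rw [hyy] at h1
    dsimp only at h1
    rw [dif_pos j.2, dif_pos j.2] at h1
    apply Fin.ext
    exact_mod_cast h1
  have hxinj : ∀ x1 x2, (∀ k < d, xx x1 k = xx x2 k) → x1 = x2 := by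
    intro y1 y2 h
    funext j
    have h1 := h j j.2
    rw [hxx] at h1
    dsimp only at h1
    rw [dif_pos j.2, dif_pos j.2] at h1
    apply Fin.ext
    exact_mod_cast h1
  -- real remainders
  have hrem : ∀ y : Fin L → Fin A, ∃ r : ℕ → ℝ, ∀ a ∈ rts P,
      ∑ j ∈ Finset.range L, (yy y j : ℂ) * a ^ (d + j) =
        ∑ k ∈ Finset.range d, (r k : ℂ) * a ^ k := by
    intro y
    obtain ⟨r, hr⟩ := exists_rem hd0 (wx (d + L) (fun k => if k < d then 0 else yy y (k - d)))
    refine ⟨r, fun a ha => ?_⟩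
    have h1 := hr a ((hmem a).1 ha)
    rw [← hdd, wx_ev, Finset.sum_range_add] at h1
    rw [← h1]
    have h2 : ∑ k ∈ Finset.range d, (((if k < d then 0 else yy y (k - d) : ℤ)) : ℂ) * a ^ k = 0 := by
      apply Finset.sum_eq_zero
      intro k hk
      rw [Finset.mem_range] at hk
      rw [if_pos hk, Int.cast_zero, zero_mul]
    rw [h2, zero_add]
    apply Finset.sum_congr rfl
    intro j _
    rw [if_neg (by omega), Nat.add_sub_cancel_left]
  choose r hr using hrem
  -- values
  obtain ⟨z, hz⟩ : ∃ z : (Fin L → Fin A) × (Fin d → Fin (H + 1)) → ℕ → ℤ,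
      z = fun i k => if k < d then xx i.2 k - ⌊r i.1 k⌋ else yy i.1 (k - d) := ⟨_, rfl⟩
  obtain ⟨val, hval⟩ : ∃ val : (Fin L → Fin A) × (Fin d → Fin (H + 1)) → ℂ → ℂ,
      val = fun i a => ev (wx (d + L) (z i)) a := ⟨_, rfl⟩
  have hvv : ∀ i, ∀ a ∈ rts P, val i a =
      ∑ k ∈ Finset.range d, ((Int.fract (r i.1 k) + xx i.2 k : ℝ) : ℂ) * a ^ k := by
    intro i a ha
    rw [hval]
    dsimp only
    rw [wx_ev, Finset.sum_range_add]
    have h1 : ∑ j ∈ Finset.range L, (z i (d + j) : ℂ) * a ^ (d + j) =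
        ∑ k ∈ Finset.range d, (r i.1 k : ℂ) * a ^ k := by
      rw [← hr i.1 a ha]
      apply Finset.sum_congr rfl
      intro j _
      rw [hz]
      dsimp only
      rw [if_neg (by omega), Nat.add_sub_cancel_left]
    rw [h1, ← Finset.sum_add_distrib]
    apply Finset.sum_congr rfl
    intro k hk
    rw [Finset.mem_range] at hk
    rw [hz]
    dsimp only
    rw [if_pos hk, ← add_mul]
    congr 1
    rw [Int.fract]
    push_cast
    ring
  have hvb : ∀ i, ∀ a ∈ rts P, ‖val i a‖ ≤ 2 * H * B := by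
    intro i a ha
    rw [hvv i a ha]
    refine (norm_sum_le _ _).trans ?_
    refine le_trans ?_ (mul_le_mul_of_nonneg_left (hBa a ha) (by positivity : (0 : ℝ) ≤ 2 * H))
    rw [Finset.mul_sum]
    apply Finset.sum_le_sum
    intro k hk
    rw [norm_mul, norm_pow]
    apply mul_le_mul_of_nonneg_right _ (by positivity)
    have h1 := hxb i.2 k
    have h2 : (0 : ℝ) ≤ (xx i.2 k : ℝ) := by exact_mod_cast h1.1
    have h3 : (xx i.2 k : ℝ) ≤ (H : ℝ) := by exact_mod_cast h1.2
    have h4 := Int.fract_nonneg (r i.1 k)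
    have h5 := Int.fract_lt_one (r i.1 k)
    rw [Complex.norm_real, Real.norm_eq_abs, abs_of_nonneg (by linarith)]
    linarith
  have hub : ∀ x, ∀ a ∈ rts P, |uu a (val x)| ≤ 2 * H * B := by
    intro x a ha
    unfold uu
    split_ifs
    · exact (Complex.abs_re_le_norm _).trans (hvb x a ha)
    · exact (Complex.abs_im_le_norm _).trans (hvb x a ha)
  -- pigeonhole
  obtain ⟨i1, -, i2, -, hne, heq⟩ :
      ∃ i1 ∈ (Finset.univ : Finset ((Fin L → Fin A) × (Fin d → Fin (H + 1)))),
      ∃ i2 ∈ (Finset.univ : Finset ((Fin L → Fin A) × (Fin d → Fin (H + 1)))), i1 ≠ i2 ∧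
        (fun (x : (Fin L → Fin A) × (Fin d → Fin (H + 1))) (a : {a // a ∈ rts P}) =>
          ⌊uu a.1 (val x) / l a.1⌋) i1 =
        (fun (x : (Fin L → Fin A) × (Fin d → Fin (H + 1))) (a : {a // a ∈ rts P}) =>
          ⌊uu a.1 (val x) / l a.1⌋) i2 := by
    apply Finset.exists_ne_map_eq_of_card_lt_of_maps_to
      (t := Fintype.piFinset fun a : {a // a ∈ rts P} =>
        Finset.Icc (-(⌈(2 * H * B : ℝ) / l a.1⌉₊ : ℤ)) (⌈(2 * H * B : ℝ) / l a.1⌉₊ : ℤ))
    · rw [Fintype.card_piFinset, Finset.card_univ, Fintype.card_prod, Fintype.card_fun,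
        Fintype.card_fun, Fintype.card_fin, Fintype.card_fin, Fintype.card_fin, Fintype.card_fin]
      have h4 : ((∏ a : {a // a ∈ rts P}, (Finset.Icc (-(⌈(2 * H * B : ℝ) / l a.1⌉₊ : ℤ))
          (⌈(2 * H * B : ℝ) / l a.1⌉₊ : ℤ)).card : ℕ) : ℝ) ≤ (A : ℝ) ^ L * (H : ℝ) ^ d := by
        push_cast
        have h5 : ∏ a : {a // a ∈ rts P}, ((Finset.Icc (-(⌈(2 * H * B : ℝ) / l a.1⌉₊ : ℤ))
            (⌈(2 * H * B : ℝ) / l a.1⌉₊ : ℤ)).card : ℝ) ≤
            ∏ a : {a // a ∈ rts P}, ((H : ℝ) * Real.exp (-t a.1)) := by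
          apply Finset.prod_le_prod
          · intro a _
            exact Nat.cast_nonneg _
          · intro a _
            have h6 : (Finset.Icc (-(⌈(2 * H * B : ℝ) / l a.1⌉₊ : ℤ))
                (⌈(2 * H * B : ℝ) / l a.1⌉₊ : ℤ)).card = 2 * ⌈(2 * H * B : ℝ) / l a.1⌉₊ + 1 := by
              rw [Int.card_Icc]
              omega
            rw [h6]
            have h7 := Nat.ceil_lt_add_one (a := (2 * H * B : ℝ) / l a.1)
              (div_nonneg (by positivity) (hl0 _).le)
            have h8 : (2 * H * B : ℝ) / l a.1 = H * Real.exp (-t a.1) / 3 := by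
              rw [hl, Real.exp_neg]
              have := Real.exp_pos (t a.1)
              field_simp
              norm_num
            have h9 : 9 ≤ H * Real.exp (-t a.1) := by
              have h10 := hH2 a.1 a.2
              rw [Real.exp_neg, ← div_eq_mul_inv, le_div_iff₀ (Real.exp_pos _)]
              exact h10
            push_cast
            rw [h8] at h7 ⊢
            linarith
        refine h5.trans (le_of_eq ?_)
        rw [Finset.prod_mul_distrib, Finset.prod_const, Finset.card_univ, Fintype.card_coe, hcard,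
          ← Real.exp_sum]
        have h6 : ∑ a : {a // a ∈ rts P}, -t a.1 = L * llc P := by
          rw [Finset.sum_neg_distrib, Finset.sum_coe_sort (rts P) t, hsum, neg_neg]
        rw [h6, hAll, mul_comm]
      have h5 : (A : ℝ) ^ L * (H : ℝ) ^ d < ((A ^ L * (H + 1) ^ d : ℕ) : ℝ) := by
        push_cast
        exact mul_lt_mul_of_pos_left (pow_lt_pow_left₀ (by linarith) hH0.le (by omega))
          (by positivity)
      exact_mod_cast lt_of_le_of_lt h4 h5
    · intro x _
      rw [Finset.mem_coe, Fintype.mem_piFinset]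
      intro a
      rw [Finset.mem_Icc]
      have h4 := hub x a.1 a.2
      have h5 : |uu a.1 (val x) / l a.1| ≤ (2 * H * B : ℝ) / l a.1 := by
        rw [abs_div, abs_of_pos (hl0 _)]
        exact div_le_div_of_nonneg_right h4 (hl0 _).le
      have h6 := Nat.le_ceil ((2 * H * B : ℝ) / l a.1)
      obtain ⟨h7, h8⟩ := abs_le.1 h5
      constructor
      · rw [Int.le_floor]
        push_cast
        linarith
      · have h9 : (⌊uu a.1 (val x) / l a.1⌋ : ℝ) ≤ (⌈(2 * H * B : ℝ) / l a.1⌉₊ : ℝ) :=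
          (Int.floor_le _).trans (by linarith)
        exact_mod_cast h9
  obtain ⟨w, hw⟩ : ∃ w : ℤ[X], w = wx (d + L) (fun k => z i1 k - z i2 k) := ⟨_, rfl⟩
  have hwv : ∀ a, ev w a = val i1 a - val i2 a := by
    intro a
    rw [hval, hw]
    dsimp only
    rw [wx_ev, wx_ev, wx_ev, ← Finset.sum_sub_distrib]
    apply Finset.sum_congr rfl
    intro k hk
    push_cast
    ring
  have hwdeg : w.natDegree < d + L := by
    rw [hw]
    exact wx_deg (by omega) _
  have hwc : ∀ k < d + L, w.coeff k = z i1 k - z i2 k := by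
    intro k hk
    rw [hw]
    exact wx_coeff _ _ hk
  have hw0 : w ≠ 0 := by
    intro h0
    apply hne
    have hy : i1.1 = i2.1 := by
      apply hyinj
      intro j hj
      have h1 := hwc (d + j) (by omega)
      rw [h0, coeff_zero, hz] at h1
      dsimp only at h1
      rw [if_neg (by omega), if_neg (by omega), Nat.add_sub_cancel_left] at h1
      omega
    have hx : i1.2 = i2.2 := by
      apply hxinj
      intro k hk
      have h1 := hwc k (by omega)
      rw [h0, coeff_zero, hz] at h1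
      dsimp only at h1
      rw [if_pos hk, if_pos hk, hy] at h1
      omega
    exact Prod.ext hy hx
  have hndvd : ¬ P ∣ w := by
    rintro ⟨q, hq⟩
    have hq0 : q ≠ 0 := by
      intro h
      rw [h, mul_zero] at hq
      exact hw0 hq
    have h1 : w.natDegree = d + q.natDegree := by
      rw [hq, natDegree_mul hPne hq0, hdd]
    have h2 : w.leadingCoeff = P.leadingCoeff * q.leadingCoeff := by
      rw [hq, leadingCoeff_mul]
    have h3 : w.leadingCoeff = yy i1.1 (w.natDegree - d) - yy i2.1 (w.natDegree - d) := by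
      have h4 := hwc w.natDegree hwdeg
      rw [hz] at h4
      dsimp only at h4
      rw [if_neg (by omega), if_neg (by omega)] at h4
      exact h4
    have h4 := hyb i1.1 (w.natDegree - d)
    have h5 := hyb i2.1 (w.natDegree - d)
    have h6 : w.leadingCoeff ≠ 0 := leadingCoeff_ne_zero.2 hw0
    have h7 : P.leadingCoeff.natAbs ≤ w.leadingCoeff.natAbs :=
      Nat.le_of_dvd (by omega) (Int.natAbs_dvd_natAbs.2 ⟨_, h2⟩)
    rw [← hA] at h7
    omega
  refine ⟨w, by rw [← hdd]; exact hwdeg, fun a ha => ⟨fun h0 => hndvd (hdvd w a ha h0), ?_⟩⟩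
  have hu : ∀ b ∈ rts P, |uu b (val i1) - uu b (val i2)| ≤ l b := by
    intro b hb
    have h4 := congrFun heq ⟨b, hb⟩
    dsimp only at h4
    have h7 := Int.floor_le (uu b (val i1) / l b)
    have h8 := Int.lt_floor_add_one (uu b (val i1) / l b)
    have h9 := Int.floor_le (uu b (val i2) / l b)
    have h10 := Int.lt_floor_add_one (uu b (val i2) / l b)
    rw [h4] at h7 h8
    have h11 : |uu b (val i1) / l b - uu b (val i2) / l b| ≤ 1 := by
      rw [abs_le]
      constructor <;> linarith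
    rw [← sub_div, abs_div, abs_of_pos (hl0 b), div_le_one (hl0 b)] at h11
    exact h11
  have hcv : ∀ x b, val x (conj b) = conj (val x b) := by
    intro x b
    rw [hval]
    dsimp only
    rw [wx_ev, wx_ev, map_sum]
    apply Finset.sum_congr rfl
    intro k _
    rw [map_mul, map_pow]
    congr 1
    exact (map_intCast (starRingEnd ℂ) _).symm
  have hre : |(ev w a).re| ≤ l a := by
    rcases le_or_gt 0 a.im with h | h
    · have h1 := hu a ha
      unfold uu at h1
      rw [if_pos h, if_pos h] at h1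
      rw [hwv, Complex.sub_re]
      exact h1
    · have h1 := hu (conj a) (hconj a ha)
      unfold uu at h1
      have h2 : 0 ≤ (conj a).im := by
        rw [Complex.conj_im]
        linarith
      rw [if_pos h2, if_pos h2, hcv, hcv, Complex.conj_re, Complex.conj_re] at h1
      rw [hwv, Complex.sub_re]
      have h3 : l (conj a) = l a := by
        rw [hl]
        dsimp only
        rw [ht]
      rw [h3] at h1
      exact h1
  have him : |(ev w a).im| ≤ l a := by
    rcases lt_trichotomy a.im 0 with h | h | h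
    · have h1 := hu a ha
      unfold uu at h1
      rw [if_neg (not_le.2 h), if_neg (not_le.2 h)] at h1
      rw [hwv, Complex.sub_im]
      exact h1
    · have h1 : conj a = a := Complex.conj_eq_iff_im.2 h
      have h2 : ∀ x, (val x a).im = 0 := by
        intro x
        have h3 := hcv x a
        rw [h1] at h3
        exact Complex.conj_eq_iff_im.1 h3.symm
      rw [hwv, Complex.sub_im, h2, h2, sub_zero, abs_zero]
      exact (hl0 a).le
    · have h1 := hu (conj a) (hconj a ha)
      unfold uu at h1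
      have h2 : ¬ 0 ≤ (conj a).im := by
        rw [Complex.conj_im]
        linarith
      rw [if_neg h2, if_neg h2, hcv, hcv, Complex.conj_im, Complex.conj_im] at h1
      rw [hwv, Complex.sub_im]
      have h3 : l (conj a) = l a := by
        rw [hl]
        dsimp only
        rw [ht]
      rw [h3] at h1
      have h4 : |(val i1 a).im - (val i2 a).im| = |-(val i1 a).im - -(val i2 a).im| := by
        rw [← abs_neg]
        congr 1
        ring
      rw [h4]
      exact h1
  refine (Complex.norm_le_abs_re_add_abs_im _).trans ?_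
  have h5 : 2 * (6 * B) * Real.exp (t a) = l a + l a := by
    rw [hl]
    ring
  rw [h5]
  exact add_le_add hre him

end Pool.Agent.Work.MP_ce2d68_du.h63
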